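import Mathlib
import Pool.Agent.H79.CG.Lim

/-!
# [H59 CG FIN] Finite subgroups have gradients of dimension less than one
-/

set_option autoImplicit false

open scoped Classical InnerProductSpace Topology

noncomputable section

namespace Pool.Agent.H79.CG

universe u

variable {G : Type u} [Group G] {κ : Type} [Fintype κ]

private def K0 (G : Type u) [Group G] (F : Finset G) : Submodule ℝ (E G Unit) where
  carrier := {ψ | ∀ x, ∑ g ∈ F, ψ (x * g, ()) = 0}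
  zero_mem' := fun x => Finset.sum_eq_zero fun g _ => rfl
  add_mem' := by
    intro φ ψ hφ hψ x
    have h : ∀ g ∈ F, (φ + ψ) (x * g, ()) = φ (x * g, ()) + ψ (x * g, ()) := fun g _ => by
      rw [lp.coeFn_add, Pi.add_apply]
    rw [Finset.sum_congr rfl h, Finset.sum_add_distrib, hφ x, hψ x, add_zero]
  smul_mem' := by
    intro r φ hφ x
    have h : ∀ g ∈ F, (r • φ) (x * g, ()) = r * φ (x * g, ()) := fun g _ => by
      rw [lp.coeFn_smul, Pi.smul_apply, smul_eq_mul]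
    rw [Finset.sum_congr rfl h, ← Finset.mul_sum, hφ x, mul_zero]

private theorem K0_inv (F : Finset G) (g : G) (ψ : E G Unit) (hψ : ψ ∈ K0 G F) : L g ψ ∈ K0 G F := by
  intro x
  have h : ∀ g' ∈ F, L g ψ (x * g', ()) = ψ (g⁻¹ * x * g', ()) := fun g' _ => by
    rw [L_apply, mul_assoc]
  rw [Finset.sum_congr rfl h]
  exact hψ (g⁻¹ * x)

private theorem q_K0_lt {F : Finset G} (hF : (1 : G) ∈ F) : q (K0 G F) 1 () < 1 := by
  by_contra hcon
  have h1 : q (K0 G F) 1 () = 1 := le_antisymm (q_le_one _ _ _) (not_lt.1 hcon)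
  have h2 : ‖dl (1 : G) () - pr (K0 G F) (dl 1 ())‖ ^ 2 = 0 := by
    have h3 : ⟪pr (K0 G F) (dl (1 : G) ()), dl 1 ()⟫_ℝ = 1 := h1
    have h4 : ‖pr (K0 G F) (dl (1 : G) ())‖ ^ 2 = 1 := by rw [← q_eq_norm_sq, h1]
    rw [@norm_sub_sq_real, norm_dl, h4, real_inner_comm, h3]
    norm_num
  have h3 : dl (1 : G) () = pr (K0 G F) (dl 1 ()) := by
    rw [← sub_eq_zero]
    exact norm_eq_zero.1 (pow_eq_zero_iff (two_ne_zero) |>.1 h2)
  have h4 : dl (1 : G) () ∈ (K0 G F).topologicalClosure := by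
    rw [h3]
    exact pr_mem _ _
  obtain ⟨v, hv⟩ : ∃ v : E G Unit, v = ∑ g ∈ F, dl g () := ⟨_, rfl⟩
  have h5 : ((K0 G F).topologicalClosure : Set (E G Unit)) ⊆ {φ | ⟪φ, v⟫_ℝ = 0} := by
    refine closure_minimal (fun ψ hψ => ?_) (isClosed_eq (continuous_id.inner continuous_const) continuous_const)
    show ⟪ψ, v⟫_ℝ = 0
    rw [hv, inner_sum]
    have h6 := hψ 1
    rw [← h6]
    refine Finset.sum_congr rfl fun g _ => ?_
    rw [inner_dl, one_mul]
  have h6 : ⟪dl (1 : G) (), v⟫_ℝ = 0 := h5 h4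
  have h7 : ⟪dl (1 : G) (), v⟫_ℝ = 1 := by
    rw [hv, inner_sum, Finset.sum_eq_single (1 : G)]
    · rw [inner_dl, dl_apply, if_pos ⟨rfl, rfl⟩]
    · intro g _ hg
      rw [inner_dl, dl_apply, if_neg (fun h => hg h.1)]
    · intro h
      exact absurd hF h
  rw [h6] at h7
  exact zero_ne_one h7

private def AF (τ : κ → G) : E G Unit →L[ℝ] E G κ :=
  el (fun _ => 1) (fun _ => 1) (fun _ => ()) - el (fun _ => 1) τ (fun _ => ())

private theorem AF_apply (τ : κ → G) (ψ : E G Unit) (x : G) (k : κ) :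
    AF τ ψ (x, k) = ψ (x, ()) - ψ (x * τ k, ()) := by
  show 1 * ψ (x * 1, ()) - 1 * ψ (x * τ k, ()) = _
  rw [one_mul, one_mul, mul_one]

/-- the gradient space of a finite subgroup has dimension less than one -/
theorem trTop_lt_one (τ : κ → G) (hfin : (Subgroup.closure (Set.range τ) : Set G).Finite) :
    ∑ k, q (KW ⊤ τ 1) 1 k < 1 := by
  obtain ⟨F, hF⟩ : ∃ F : Finset G, F = hfin.toFinset := ⟨_, rfl⟩
  have hmem : ∀ g, g ∈ F ↔ g ∈ Subgroup.closure (Set.range τ) := by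
    intro g
    rw [hF, Set.Finite.mem_toFinset]
    rfl
  have h1F : (1 : G) ∈ F := (hmem 1).2 (Subgroup.one_mem _)
  have hN : (F.card : ℝ) ≠ 0 := by
    have h : 0 < F.card := Finset.card_pos.2 ⟨1, h1F⟩
    exact_mod_cast h.ne'
  have hshift : ∀ (f : G → ℝ) (x h : G), h ∈ Subgroup.closure (Set.range τ) →
      ∑ g ∈ F, f (x * h * g) = ∑ g ∈ F, f (x * g) := by
    intro f x h hh
    refine Finset.sum_bij (fun g _ => h * g) ?_ ?_ ?_ ?_
    · intro g hg
      exact (hmem _).2 (Subgroup.mul_mem _ hh ((hmem g).1 hg))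
    · intro g _ g' _ he
      exact mul_left_cancel he
    · intro g hg
      refine ⟨h⁻¹ * g, (hmem _).2 (Subgroup.mul_mem _ (Subgroup.inv_mem _ hh) ((hmem g).1 hg)), ?_⟩
      rw [mul_inv_cancel_left]
    · intro g _
      rw [mul_assoc]
  choose! Z hZ hZ' using fun (g : G) (hg : g ∈ Subgroup.closure (Set.range τ)) => exists_path τ g hg
  obtain ⟨B, hB⟩ : ∃ B : E G κ →L[ℝ] E G Unit, B = (F.card : ℝ)⁻¹ • ∑ g ∈ F, Z g := ⟨_, rfl⟩
  have hBeqv : Eqv B := by
    rw [hB]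
    refine Eqv.smul ?_ _
    intro g φ
    rw [_root_.sum_apply, _root_.sum_apply, map_sum]
    exact Finset.sum_congr rfl fun g' hg' => hZ g' ((hmem g').1 hg') g φ
  have hBa : ∀ (φ : E G κ) (w : G → ℝ), Gr τ 1 w φ → ∀ x, B φ (x, ()) =
      w x - (F.card : ℝ)⁻¹ * ∑ g ∈ F, w (x * g) := by
    intro φ w h x
    have h1 : B φ (x, ()) = (F.card : ℝ)⁻¹ * ∑ g ∈ F, Z g φ (x, ()) := by
      rw [hB, smul_apply, lp.coeFn_smul, Pi.smul_apply, smul_eq_mul, _root_.sum_apply, lp.coeFn_sum,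
        Finset.sum_apply]
    have h2 : ∑ g ∈ F, Z g φ (x, ()) = ∑ g ∈ F, (w x - w (x * g)) :=
      Finset.sum_congr rfl fun g hg => hZ' g ((hmem g).1 hg) φ w h x
    rw [h1, h2, Finset.sum_sub_distrib, Finset.sum_const, nsmul_eq_mul, mul_sub, inv_mul_cancel_left₀ hN]
  have key := tr_pr_eq (K := K0 G F) (K' := KW ⊤ τ 1) (K0_inv F) (KW_inv top_inv τ 1) (AF τ) B
    ((el_eqv _ _ _).sub (el_eqv _ _ _)) hBeqv ?_ ?_
  · rw [tr_pr, tr_pr, Fintype.sum_unique] at key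
    rw [← key]
    exact q_K0_lt h1F
  · intro ψ hψ
    have hgr : Gr τ 1 (fun x => ψ (x, ())) (AF τ ψ) := by
      intro x k
      rw [AF_apply, Pi.one_apply, one_mul]
    refine ⟨⟨_, Submodule.mem_top, hgr⟩, E_ext ?_⟩
    rintro ⟨x, -⟩
    rw [hBa _ _ hgr x]
    have h := hψ x
    rw [h, mul_zero, sub_zero]
  · rintro φ ⟨w, -, hgr⟩
    refine ⟨fun x => ?_, E_ext ?_⟩
    · have h1 : ∑ g ∈ F, B φ (x * g, ()) = ∑ g ∈ F, (w (x * g) - (F.card : ℝ)⁻¹ * ∑ g' ∈ F, w (x * g')) := by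
        refine Finset.sum_congr rfl fun g hg => ?_
        rw [hBa φ w hgr, hshift w x g ((hmem g).1 hg)]
      rw [h1, Finset.sum_sub_distrib, Finset.sum_const, nsmul_eq_mul, mul_inv_cancel_left₀ hN, sub_self]
    · rintro ⟨x, k⟩
      rw [AF_apply, hBa φ w hgr, hBa φ w hgr, hshift w x (τ k) (Subgroup.subset_closure ⟨k, rfl⟩), hgr x k,
        Pi.one_apply, one_mul]
      ring

end Pool.Agent.H79.CG
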