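import Mathlib
import Pool.Agent.H79.CG.Lim

/-!
# [H59 CG MASS] The gradients of the finitely supported functions have dimension at least one

If `τ` generates an infinite subgroup, the space of the gradients of the finitely supported functions has dimension at
least one. Proof: with an additional label which carries `ε w` the dimension is one, and the diagonal of the additional
label tends to `0` with `ε`.
-/

set_option autoImplicit false

open scoped Classical InnerProductSpace Topology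

noncomputable section

namespace Pool.Agent.H79.CG

universe u

variable {G : Type u} [Group G] {κ : Type} [Fintype κ]

private def KM (τ : κ → G) (ε : ℝ) : Submodule ℝ (E G (κ ⊕ Unit)) where
  carrier := {φ | ∃ w ∈ WN G, (∀ x k, φ (x, Sum.inl k) = w x - w (x * τ k)) ∧ ∀ x, φ (x, Sum.inr ()) = ε * w x}
  zero_mem' := ⟨0, (WN G).zero_mem, fun x k => by
    rw [lp.coeFn_zero, Pi.zero_apply, Pi.zero_apply, Pi.zero_apply, sub_self], fun x => by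
    rw [lp.coeFn_zero, Pi.zero_apply, Pi.zero_apply, mul_zero]⟩
  add_mem' := by
    rintro φ ψ ⟨v, hv, hφ, hφ'⟩ ⟨w, hw, hψ, hψ'⟩
    refine ⟨v + w, (WN G).add_mem hv hw, fun x k => ?_, fun x => ?_⟩
    · rw [lp.coeFn_add, Pi.add_apply, hφ x k, hψ x k, Pi.add_apply, Pi.add_apply]
      ring
    · rw [lp.coeFn_add, Pi.add_apply, hφ' x, hψ' x, Pi.add_apply]
      ring
  smul_mem' := by
    rintro r φ ⟨v, hv, hφ, hφ'⟩
    refine ⟨r • v, (WN G).smul_mem r hv, fun x k => ?_, fun x => ?_⟩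
    · rw [lp.coeFn_smul, Pi.smul_apply, hφ x k, Pi.smul_apply, Pi.smul_apply, smul_eq_mul, smul_eq_mul, smul_eq_mul]
      ring
    · rw [lp.coeFn_smul, Pi.smul_apply, hφ' x, Pi.smul_apply, smul_eq_mul, smul_eq_mul]
      ring

private def K1 (G : Type u) [Group G] : Submodule ℝ (E G Unit) where
  carrier := {φ | ∃ w ∈ WN G, ∀ x, φ (x, ()) = w x}
  zero_mem' := ⟨0, (WN G).zero_mem, fun x => rfl⟩
  add_mem' := by
    rintro φ ψ ⟨v, hv, hφ⟩ ⟨w, hw, hψ⟩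
    refine ⟨v + w, (WN G).add_mem hv hw, fun x => ?_⟩
    rw [lp.coeFn_add, Pi.add_apply, hφ x, hψ x, Pi.add_apply]
  smul_mem' := by
    rintro r φ ⟨v, hv, hφ⟩
    refine ⟨r • v, (WN G).smul_mem r hv, fun x => ?_⟩
    rw [lp.coeFn_smul, Pi.smul_apply, hφ x, Pi.smul_apply]

private theorem K1_inv (g : G) (φ : E G Unit) (hφ : φ ∈ K1 G) : L g φ ∈ K1 G := by
  obtain ⟨w, hw, h⟩ := hφ
  refine ⟨_, WN_inv g w hw, fun x => ?_⟩
  rw [L_apply, h]

omit [Fintype κ] in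
private theorem KM_inv (τ : κ → G) (ε : ℝ) (g : G) (φ : E G (κ ⊕ Unit)) (hφ : φ ∈ KM τ ε) : L g φ ∈ KM τ ε := by
  obtain ⟨w, hw, h, h'⟩ := hφ
  refine ⟨_, WN_inv g w hw, fun x l => ?_, fun x => ?_⟩
  · rw [L_apply, h, mul_assoc]
  · rw [L_apply, h']

private theorem q_K1 : q (K1 G) 1 () = 1 := by
  have h : dl (1 : G) () ∈ K1 G := by
    refine ⟨fun x => if x = 1 then 1 else 0, ?_, fun x => ?_⟩
    · show (Function.support _).Finite
      refine (Set.finite_singleton (1 : G)).subset ?_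
      intro x hx
      rw [Function.mem_support] at hx
      by_contra hcon
      exact hx (if_neg hcon)
    · rw [dl_apply]
      by_cases hx : x = 1
      · rw [if_pos ⟨hx, rfl⟩]
        exact (if_pos hx).symm
      · rw [if_neg (fun h => hx h.1)]
        exact (if_neg hx).symm
  rw [q_eq_norm_sq, pr_of_mem h, norm_dl, one_pow]

private def AA (τ : κ → G) (ε : ℝ) : E G Unit →L[ℝ] E G (κ ⊕ Unit) :=
  el (Sum.elim (fun _ : κ => (1 : ℝ)) (fun _ : Unit => ε)) (fun _ => 1) (fun _ => ()) -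
    el (Sum.elim (fun _ : κ => (1 : ℝ)) (fun _ : Unit => 0)) (Sum.elim τ (fun _ => 1)) (fun _ => ())

private theorem AA_inl (τ : κ → G) (ε : ℝ) (ψ : E G Unit) (x : G) (k : κ) :
    AA τ ε ψ (x, Sum.inl k) = ψ (x, ()) - ψ (x * τ k, ()) := by
  show 1 * ψ (x * 1, ()) - 1 * ψ (x * τ k, ()) = _
  rw [one_mul, one_mul, mul_one]

private theorem AA_inr (τ : κ → G) (ε : ℝ) (ψ : E G Unit) (x : G) :
    AA τ ε ψ (x, Sum.inr ()) = ε * ψ (x, ()) := by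
  show ε * ψ (x * 1, ()) - 0 * ψ (x * 1, ()) = _
  rw [zero_mul, sub_zero, mul_one]

private def BB (κ : Type) [Fintype κ] (G : Type u) [Group G] (ε : ℝ) : E G (κ ⊕ Unit) →L[ℝ] E G Unit :=
  el (fun _ : Unit => ε⁻¹) (fun _ => 1) (fun _ => Sum.inr ())

private theorem BB_apply (ε : ℝ) (φ : E G (κ ⊕ Unit)) (x : G) :
    BB κ G ε φ (x, ()) = ε⁻¹ * φ (x, Sum.inr ()) := by
  rw [BB, el_apply, mul_one]

private theorem tr_KM (τ : κ → G) {ε : ℝ} (hε : ε ≠ 0) :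
    ∑ k, q (KM τ ε) 1 (Sum.inl k) + q (KM τ ε) 1 (Sum.inr ()) = 1 := by
  have h := tr_pr_eq (K := K1 G) (K' := KM τ ε) K1_inv (KM_inv τ ε) (AA τ ε) (BB κ G ε)
    ((el_eqv _ _ _).sub (el_eqv _ _ _)) (el_eqv _ _ _) ?_ ?_
  · have h2 : ∑ a : Unit, q (KM τ ε) 1 (Sum.inr a) = q (KM τ ε) 1 (Sum.inr ()) := Fintype.sum_unique _
    rw [tr_pr, tr_pr, Fintype.sum_sum_type, Fintype.sum_unique, h2] at h
    rw [← q_K1 (G := G)]
    exact h.symm
  · rintro φ ⟨w, hw, h⟩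
    refine ⟨⟨w, hw, fun x k => ?_, fun x => ?_⟩, E_ext ?_⟩
    · rw [AA_inl, h, h]
    · rw [AA_inr, h]
    · rintro ⟨x, -⟩
      rw [BB_apply, AA_inr, inv_mul_cancel_left₀ hε]
  · rintro φ ⟨w, hw, h, h'⟩
    have e0 : ∀ x, BB κ G ε φ (x, ()) = w x := by
      intro x
      rw [BB_apply, h', inv_mul_cancel_left₀ hε]
    refine ⟨⟨w, hw, e0⟩, E_ext ?_⟩
    rintro ⟨x, k | -⟩
    · rw [AA_inl, e0, e0, h]
    · rw [AA_inr, e0, h']

private theorem norm_Rl_le {ι : Type} [Fintype ι] (φ : E G (ι ⊕ κ)) : ‖Rl φ‖ ≤ ‖φ‖ := by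
  have h := norm_split φ
  exact le_of_sq_le_sq (by nlinarith [sq_nonneg ‖Rr (G := G) (ι := ι) (κ := κ) φ‖]) (norm_nonneg _)

private theorem Gr_Rl_KM {τ : κ → G} {φ : E G (κ ⊕ Unit)} {w : G → ℝ}
    (h : ∀ x k, φ (x, Sum.inl k) = w x - w (x * τ k)) : Gr τ 1 w (Rl φ) := by
  intro x k
  rw [Rl_apply, h x k, Pi.one_apply, one_mul]

/-- compression to the labels `τ` -/
private theorem q_inl_KM_le (τ : κ → G) (ε : ℝ) (k : κ) :
    q (KM τ ε) 1 (Sum.inl k) ≤ q (KW (WN G) τ 1) 1 k := by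
  obtain ⟨K, hK⟩ : ∃ K, K = KM τ ε := ⟨_, rfl⟩
  rw [← hK]
  have h1 := pr_mem K (dl 1 (Sum.inl k))
  obtain ⟨φ, hφ⟩ : ∃ φ, φ = pr K (dl 1 (Sum.inl k)) := ⟨_, rfl⟩
  rw [← hφ] at h1
  have h2 : Rl φ ∈ (KW (WN G) τ 1).topologicalClosure := by
    have h3 : (K.topologicalClosure : Set (E G (κ ⊕ Unit))) ⊆ Rl ⁻¹' ((KW (WN G) τ 1).topologicalClosure :
        Set (E G κ)) := by
      refine closure_minimal (fun ψ hψ => ?_)
        ((KW (WN G) τ 1).isClosed_topologicalClosure.preimage (Rl (G := G) (ι := κ) (κ := Unit)).continuous)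
      rw [hK] at hψ
      obtain ⟨w, hw, h, -⟩ := hψ
      exact (KW (WN G) τ 1).le_topologicalClosure ⟨w, hw, Gr_Rl_KM h⟩
    exact h3 h1
  have h3 := sq_le_q h2 1 k
  rw [Rl_apply] at h3
  have h4 : φ (1, Sum.inl k) = q K 1 (Sum.inl k) := by rw [q_eq_apply, hφ]
  have h5 : ‖Rl φ‖ ^ 2 ≤ q K 1 (Sum.inl k) := by
    rw [q_eq_norm_sq, ← hφ]
    exact pow_le_pow_left₀ (norm_nonneg _) (norm_Rl_le φ) 2
  rw [h4] at h3
  have h6 := q_nonneg K 1 (Sum.inl k)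
  have h7 := q_nonneg (KW (WN G) τ 1) 1 k
  rcases h6.eq_or_lt with h8 | h8
  · rw [← h8]
    exact h7
  · have h9 : q K 1 (Sum.inl k) ^ 2 ≤ q K 1 (Sum.inl k) * q (KW (WN G) τ 1) 1 k :=
      h3.trans (mul_le_mul_of_nonneg_right h5 h7)
    rw [sq] at h9
    exact le_of_mul_le_mul_left h9 h8

/-- the diagonal of the additional label is small -/
private theorem exists_small (τ : κ → G) (hinf : (Subgroup.closure (Set.range τ) : Set G).Infinite) {δ : ℝ}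
    (hδ : 0 < δ) : ∃ ε : ℝ, ε ≠ 0 ∧ q (KM τ ε) 1 (Sum.inr ()) ≤ δ := by
  obtain ⟨n, hn⟩ := exists_nat_gt (2 / δ)
  have hn0 : (0 : ℝ) < n := lt_trans (by positivity) hn
  obtain ⟨F, hF, hcard⟩ := hinf.exists_subset_card_eq n
  choose! C hC hC' using fun (g : G) (hg : g ∈ Subgroup.closure (Set.range τ)) => exists_bound τ g hg
  obtain ⟨D, hD⟩ : ∃ D, D = ∑ g ∈ F, C g := ⟨_, rfl⟩
  have hCD : ∀ g ∈ F, C g ≤ D := by
    intro g hg
    rw [hD]
    exact Finset.single_le_sum (fun g' hg' => hC g' (hF hg')) hg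
  have hD0 : 0 ≤ D := by
    rw [hD]
    exact Finset.sum_nonneg fun g' hg' => hC g' (hF hg')
  obtain ⟨ε, hε, hε'⟩ : ∃ ε : ℝ, 0 < ε ∧ 2 * D ^ 2 * ε ^ 2 ≤ δ := by
    refine ⟨Real.sqrt (δ / (2 * D ^ 2 + 1)), Real.sqrt_pos.2 (by positivity), ?_⟩
    rw [Real.sq_sqrt (by positivity), mul_div_assoc', div_le_iff₀ (by positivity)]
    nlinarith [sq_nonneg D]
  refine ⟨ε, hε.ne', ?_⟩
  by_contra hcon
  rw [not_le] at hcon
  obtain ⟨φ, ⟨w, hw, h1, h2⟩, h3⟩ := exists_of_lt_q hδ.le hcon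
  have hgr : Gr τ 1 w (Rl φ) := Gr_Rl_KM h1
  have h4 : ∀ g ∈ F, |w 1 - w g| ≤ D * ‖Rl φ‖ := by
    intro g hg
    have h5 := hC' g (hF hg) (Rl φ) w hgr 1
    rw [one_mul] at h5
    exact h5.trans (mul_le_mul_of_nonneg_right (hCD g hg) (norm_nonneg _))
  have h5 : ∀ g ∈ F, (ε * w 1) ^ 2 ≤ 2 * (ε * w g) ^ 2 + 2 * (D ^ 2 * ε ^ 2) * ‖Rl φ‖ ^ 2 := by
    intro g hg
    have h6 := h4 g hg
    have h7 : (w 1 - w g) ^ 2 ≤ (D * ‖Rl φ‖) ^ 2 := by
      rw [← sq_abs]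
      exact pow_le_pow_left₀ (abs_nonneg _) h6 2
    have h8 : w 1 ^ 2 ≤ 2 * w g ^ 2 + 2 * (D * ‖Rl φ‖) ^ 2 := by nlinarith [sq_nonneg (w 1 - 2 * w g)]
    have h9 := mul_le_mul_of_nonneg_left h8 (sq_nonneg ε)
    nlinarith [h9]
  have h6 := Finset.sum_le_sum h5
  rw [Finset.sum_const, Finset.sum_add_distrib, Finset.sum_const, hcard, nsmul_eq_mul, nsmul_eq_mul,
    ← Finset.mul_sum] at h6
  have h7 : ∑ g ∈ F, (ε * w g) ^ 2 ≤ ‖Rr φ‖ ^ 2 := by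
    have h8 := E_nsq (Rr φ)
    have h9 : HasSum (fun x : G => Rr φ (x, ()) ^ 2) (‖Rr φ‖ ^ 2) :=
      ((Equiv.prodUnique G Unit).symm.hasSum_iff (f := fun p => Rr φ p ^ 2)).2 h8
    have h10 := sum_le_hasSum F (fun x _ => sq_nonneg _) h9
    refine le_trans (le_of_eq ?_) h10
    refine Finset.sum_congr rfl fun g _ => ?_
    rw [Rr_apply, h2]
  have h8 := norm_split φ
  rw [h2 1] at h3
  have h9 : (2 : ℝ) ≤ δ * n := by
    rw [div_lt_iff₀ hδ] at hn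
    linarith
  have h10 : 0 ≤ ‖Rl φ‖ ^ 2 := sq_nonneg _
  have h11 : 0 ≤ ‖Rr φ‖ ^ 2 := sq_nonneg _
  have h12 : (n : ℝ) * (ε * w 1) ^ 2 ≤ (n : ℝ) * (δ * ‖φ‖ ^ 2) := by
    rw [h8]
    have h13 : 2 * ‖Rr φ‖ ^ 2 ≤ δ * n * ‖Rr φ‖ ^ 2 := mul_le_mul_of_nonneg_right h9 h11
    have h14 : 2 * (D ^ 2 * ε ^ 2) * ‖Rl φ‖ ^ 2 ≤ δ * ‖Rl φ‖ ^ 2 :=
      mul_le_mul_of_nonneg_right (by linarith) h10
    have h15 := mul_le_mul_of_nonneg_left h14 hn0.le
    nlinarith [h6, h7, h13, h15]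
  have h13 := le_of_mul_le_mul_left h12 hn0
  linarith

/-- the gradients of the finitely supported functions have dimension at least one -/
theorem one_le_trN (τ : κ → G) (hinf : (Subgroup.closure (Set.range τ) : Set G).Infinite) :
    1 ≤ ∑ k, q (KW (WN G) τ 1) 1 k := by
  refine le_of_forall_pos_le_add fun δ hδ => ?_
  obtain ⟨ε, hε, h1⟩ := exists_small τ hinf hδ
  have h2 := tr_KM τ hε
  have h3 : ∑ k, q (KM τ ε) 1 (Sum.inl k) ≤ ∑ k, q (KW (WN G) τ 1) 1 k :=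
    Finset.sum_le_sum fun k _ => q_inl_KM_le τ ε k
  linarith

end Pool.Agent.H79.CG
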