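import Mathlib
import Pool.Agent.H59.CG.Mass
import Pool.Agent.H59.CG.Fin

/-!
# [H59 CG CHAIN] Every finitely generated infinite group contains an infinite subgroup with `bt < 1`

Take the first infinite subgroup in the chain `⟨s 1, …, s i⟩`: it is generated by a finite subgroup (whose gradient space
has dimension less than one) and one more element, so its gradient space has dimension less than two; the gradients of the
finitely supported functions have dimension at least one.
-/

set_option autoImplicit false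

open scoped Classical InnerProductSpace Topology

noncomputable section

namespace Pool.Agent.H79.CG

universe u

variable {G : Type u} [Group G] {ι κ : Type} [Fintype ι] [Fintype κ]

private theorem nRl_le (φ : E G (ι ⊕ κ)) : ‖Rl φ‖ ≤ ‖φ‖ := by
  have h := norm_split φ
  exact le_of_sq_le_sq (by nlinarith [sq_nonneg ‖Rr (G := G) (ι := ι) (κ := κ) φ‖]) (norm_nonneg _)

/-- compression to the labels `σ` -/
theorem q_inl_le_one (σ : ι → G) (τ : κ → G) (W : Submodule ℝ (G → ℝ)) (l : ι) :
    q (KW W (Sum.elim σ τ) 1) 1 (Sum.inl l) ≤ q (KW W σ 1) 1 l := by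
  obtain ⟨K, hK⟩ : ∃ K, K = KW W (Sum.elim σ τ) 1 := ⟨_, rfl⟩
  rw [← hK]
  have h1 := pr_mem K (dl 1 (Sum.inl l))
  obtain ⟨φ, hφ⟩ : ∃ φ, φ = pr K (dl 1 (Sum.inl l)) := ⟨_, rfl⟩
  rw [← hφ] at h1
  have h2 : Rl φ ∈ (KW W σ 1).topologicalClosure := by
    have h3 : (K.topologicalClosure : Set (E G (ι ⊕ κ))) ⊆ Rl ⁻¹' ((KW W σ 1).topologicalClosure : Set (E G ι)) := by
      refine closure_minimal (fun ψ hψ => ?_)
        ((KW W σ 1).isClosed_topologicalClosure.preimage (Rl (G := G) (ι := ι) (κ := κ)).continuous)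
      rw [hK] at hψ
      obtain ⟨w, hw, h⟩ := hψ
      refine (KW W σ 1).le_topologicalClosure ⟨w, hw, fun x k => ?_⟩
      rw [Rl_apply, h x (Sum.inl k)]
      rfl
    exact h3 h1
  have h3 := sq_le_q h2 1 l
  rw [Rl_apply] at h3
  have h4 : φ (1, Sum.inl l) = q K 1 (Sum.inl l) := by rw [q_eq_apply, hφ]
  have h5 : ‖Rl φ‖ ^ 2 ≤ q K 1 (Sum.inl l) := by
    rw [q_eq_norm_sq, ← hφ]
    exact pow_le_pow_left₀ (norm_nonneg _) (nRl_le φ) 2
  rw [h4] at h3
  have h6 := q_nonneg K 1 (Sum.inl l)
  have h7 := q_nonneg (KW W σ 1) 1 l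
  rcases h6.eq_or_lt with h8 | h8
  · rw [← h8]
    exact h7
  · have h9 : q K 1 (Sum.inl l) ^ 2 ≤ q K 1 (Sum.inl l) * q (KW W σ 1) 1 l :=
      h3.trans (mul_le_mul_of_nonneg_right h5 h7)
    rw [sq] at h9
    exact le_of_mul_le_mul_left h9 h8

/-- a finite subgroup and one more element -/
theorem bt_lt_one (σ : ι → G) (g : G) (hfin : (Subgroup.closure (Set.range σ) : Set G).Finite)
    (hinf : (Subgroup.closure (Set.range (Sum.elim σ (fun _ : Unit => g))) : Set G).Infinite) :
    bt (Sum.elim σ (fun _ : Unit => g)) < 1 := by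
  have h1 := one_le_trN _ hinf
  have h2 := trTop_lt_one σ hfin
  have h3 : ∑ l, q (KW ⊤ (Sum.elim σ (fun _ : Unit => g)) 1) 1 l < 2 := by
    rw [Fintype.sum_sum_type]
    have h4 : ∑ l : ι, q (KW ⊤ (Sum.elim σ (fun _ : Unit => g)) 1) 1 (Sum.inl l) ≤ ∑ l, q (KW ⊤ σ 1) 1 l :=
      Finset.sum_le_sum fun l _ => q_inl_le_one σ _ ⊤ l
    have h5 : ∑ l : Unit, q (KW ⊤ (Sum.elim σ (fun _ : Unit => g)) 1) 1 (Sum.inr l) ≤ 1 := by
      rw [Fintype.sum_unique]
      exact q_le_one _ _ _
    linarith
  rw [bt, Finset.sum_sub_distrib]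
  linarith

/-- every finitely generated infinite group contains an infinite subgroup with `bt < 1` -/
theorem exists_bt_lt_one : ∀ (n : ℕ) (σ : Fin n → G), (Subgroup.closure (Set.range σ) : Set G).Infinite →
    ∃ (m : ℕ) (τ : Fin m ⊕ Unit → G), (∀ k, τ k ∈ Subgroup.closure (Set.range σ)) ∧
      (Subgroup.closure (Set.range τ) : Set G).Infinite ∧ bt τ < 1 := by
  intro n
  induction n with
  | zero =>
    intro σ h
    exfalso
    apply h
    have h1 : Set.range σ = ∅ := Set.range_eq_empty σ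
    rw [h1, Subgroup.closure_empty]
    exact Set.finite_singleton 1
  | succ n ih =>
    intro σ h
    by_cases hfin : (Subgroup.closure (Set.range (fun i : Fin n => σ i.castSucc)) : Set G).Finite
    · have hrange : Set.range (Sum.elim (fun i : Fin n => σ i.castSucc) (fun _ : Unit => σ (Fin.last n))) =
          Set.range σ := by
        ext g
        constructor
        · rintro ⟨l | l, rfl⟩
          · exact ⟨l.castSucc, rfl⟩
          · exact ⟨Fin.last n, rfl⟩
        · rintro ⟨i, rfl⟩
          induction i using Fin.lastCases with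
          | last => exact ⟨Sum.inr (), rfl⟩
          | cast i => exact ⟨Sum.inl i, rfl⟩
      refine ⟨n, Sum.elim (fun i : Fin n => σ i.castSucc) (fun _ : Unit => σ (Fin.last n)), fun k => ?_, ?_, ?_⟩
      · rw [← hrange]
        exact Subgroup.subset_closure ⟨k, rfl⟩
      · rw [hrange]
        exact h
      · exact bt_lt_one _ _ hfin (by rw [hrange]; exact h)
    · obtain ⟨m, τ, h1, h2, h3⟩ := ih (fun i : Fin n => σ i.castSucc) hfin
      refine ⟨m, τ, fun k => ?_, h2, h3⟩
      refine (Subgroup.closure_mono ?_) (h1 k)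
      rintro _ ⟨i, rfl⟩
      exact ⟨i.castSucc, rfl⟩

end Pool.Agent.H79.CG
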