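import Mathlib
import Pool.Agent.H79.CG.Defs

/-!
# [H59 CG TORS A] Costs, level sets of a harmonic function of finite energy
-/

set_option autoImplicit false

open scoped Classical Pointwise

noncomputable section

namespace Pool.Agent.H79.CG

universe u

variable {G : Type u} [Group G]

/-! ### the cost of an element -/

/-- `∑ x, (u (x g) - u x) ^ 2 ≤ c ^ 2` -/
def Bd (u : G → ℝ) (g : G) (c : ℝ) : Prop :=
  0 ≤ c ∧ ∀ A : Finset G, ∑ x ∈ A, (u (x * g) - u x) ^ 2 ≤ c ^ 2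

theorem Bd_one (u : G → ℝ) : Bd u 1 0 := by
  refine ⟨le_rfl, fun A => ?_⟩
  refine le_of_eq ?_
  rw [zero_pow two_ne_zero]
  refine Finset.sum_eq_zero fun x _ => ?_
  rw [mul_one, sub_self, zero_pow two_ne_zero]

theorem Bd.mono {u : G → ℝ} {g : G} {c d : ℝ} (h : Bd u g c) (hcd : c ≤ d) : Bd u g d :=
  ⟨h.1.trans hcd, fun A => (h.2 A).trans (pow_le_pow_left₀ h.1 hcd 2)⟩

theorem Bd.inv {u : G → ℝ} {g : G} {c : ℝ} (h : Bd u g c) : Bd u g⁻¹ c := by
  refine ⟨h.1, fun A => ?_⟩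
  have h1 := h.2 (A.map (Equiv.mulRight g⁻¹).toEmbedding)
  rw [Finset.sum_map] at h1
  refine le_trans (le_of_eq ?_) h1
  refine Finset.sum_congr rfl fun x _ => ?_
  show (u (x * g⁻¹) - u x) ^ 2 = (u (x * g⁻¹ * g) - u (x * g⁻¹)) ^ 2
  rw [inv_mul_cancel_right]
  ring

theorem Bd.mul {u : G → ℝ} {g h : G} {c d : ℝ} (hg : Bd u g c) (hh : Bd u h d) : Bd u (g * h) (c + d) := by
  refine ⟨add_nonneg hg.1 hh.1, fun A => ?_⟩
  have h1 := hg.2 A
  have h2 : ∑ x ∈ A, (u (x * g * h) - u (x * g)) ^ 2 ≤ d ^ 2 := by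
    have h3 := hh.2 (A.map (Equiv.mulRight g).toEmbedding)
    rw [Finset.sum_map] at h3
    exact h3
  have h3 := Finset.sum_mul_sq_le_sq_mul_sq A (fun x => u (x * g) - u x) (fun x => u (x * g * h) - u (x * g))
  have h4 : (∑ x ∈ A, (u (x * g) - u x) * (u (x * g * h) - u (x * g))) ^ 2 ≤ (c * d) ^ 2 := by
    refine h3.trans ?_
    rw [mul_pow]
    exact mul_le_mul h1 h2 (Finset.sum_nonneg fun x _ => sq_nonneg _) (sq_nonneg c)
  have h5 : ∑ x ∈ A, (u (x * g) - u x) * (u (x * g * h) - u (x * g)) ≤ c * d :=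
    le_of_abs_le (abs_le_of_sq_le_sq h4 (mul_nonneg hg.1 hh.1))
  have h6 : ∑ x ∈ A, (u (x * (g * h)) - u x) ^ 2 = ∑ x ∈ A, (u (x * g) - u x) ^ 2 +
      2 * ∑ x ∈ A, (u (x * g) - u x) * (u (x * g * h) - u (x * g)) + ∑ x ∈ A, (u (x * g * h) - u (x * g)) ^ 2 := by
    rw [Finset.mul_sum, ← Finset.sum_add_distrib, ← Finset.sum_add_distrib]
    refine Finset.sum_congr rfl fun x _ => ?_
    rw [mul_assoc]
    ring
  rw [h6]
  nlinarith

theorem Bd.neg {u : G → ℝ} {g : G} {c : ℝ} (h : Bd u g c) : Bd (fun x => -u x) g c := by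
  refine ⟨h.1, fun A => ?_⟩
  refine le_trans (le_of_eq ?_) (h.2 A)
  refine Finset.sum_congr rfl fun x _ => ?_
  ring

/-- few points with a large difference -/
theorem Bd.card_le {u : G → ℝ} {g : G} {c ε : ℝ} (h : Bd u g c) (hε : 0 < ε) (A : Finset G)
    (hA : ∀ x ∈ A, ε ≤ |u (x * g) - u x|) : (A.card : ℝ) ≤ c ^ 2 / ε ^ 2 := by
  rw [le_div_iff₀ (by positivity)]
  have h1 : ∑ _x ∈ A, ε ^ 2 ≤ ∑ x ∈ A, (u (x * g) - u x) ^ 2 := by
    refine Finset.sum_le_sum fun x hx => ?_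
    rw [← sq_abs (u (x * g) - u x)]
    exact pow_le_pow_left₀ hε.le (hA x hx) 2
  rw [Finset.sum_const, nsmul_eq_mul] at h1
  exact h1.trans (h.2 A)

/-! ### balls -/

/-- the symmetric set of generators -/
def sT (S : Finset G) : Finset G := S ∪ S⁻¹ ∪ {1}

theorem one_mem_sT (S : Finset G) : (1 : G) ∈ sT S := by
  rw [sT, Finset.mem_union, Finset.mem_singleton]
  exact Or.inr rfl

theorem mem_sT {S : Finset G} {s : G} (hs : s ∈ S) : s ∈ sT S := by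
  rw [sT, Finset.mem_union, Finset.mem_union]
  exact Or.inl (Or.inl hs)

theorem inv_mem_sT {S : Finset G} {s : G} (hs : s ∈ S) : s⁻¹ ∈ sT S := by
  rw [sT, Finset.mem_union, Finset.mem_union, Finset.mem_inv]
  exact Or.inl (Or.inr ⟨s, hs, rfl⟩)

theorem sT_pow_mono (S : Finset G) {m n : ℕ} (h : m ≤ n) : sT S ^ m ⊆ sT S ^ n :=
  Finset.pow_subset_pow_right (one_mem_sT S) h

theorem exists_Bd {S : Finset G} {u : G → ℝ} (hu : IsHD S u) :
    ∃ C : ℝ, 0 ≤ C ∧ ∀ (n : ℕ), ∀ g ∈ sT S ^ n, Bd u g (n * C) := by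
  have h1 : ∀ s ∈ S, ∃ c, Bd u s c := by
    intro s hs
    refine ⟨Real.sqrt (∑' x, (u x - u (x * s)) ^ 2), Real.sqrt_nonneg _, fun A => ?_⟩
    rw [Real.sq_sqrt (tsum_nonneg fun x => sq_nonneg _)]
    refine le_trans (le_of_eq ?_) ((hu.1 s hs).sum_le_tsum A fun x _ => sq_nonneg _)
    refine Finset.sum_congr rfl fun x _ => ?_
    ring
  choose! c hc using h1
  have hC : 0 ≤ ∑ s ∈ S, c s := Finset.sum_nonneg fun s hs => (hc s hs).1
  have h2 : ∀ s ∈ S, Bd u s (∑ s ∈ S, c s) := fun s hs =>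
    (hc s hs).mono (Finset.single_le_sum (fun s' hs' => (hc s' hs').1) hs)
  have h3 : ∀ t ∈ sT S, Bd u t (∑ s ∈ S, c s) := by
    intro t ht
    rw [sT, Finset.mem_union, Finset.mem_union, Finset.mem_inv, Finset.mem_singleton] at ht
    rcases ht with (ht | ⟨s, hs, rfl⟩) | rfl
    · exact h2 t ht
    · exact (h2 s hs).inv
    · exact (Bd_one u).mono hC
  refine ⟨∑ s ∈ S, c s, hC, fun n => ?_⟩
  induction n with
  | zero =>
    intro g hg
    rw [pow_zero, Finset.mem_one] at hg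
    rw [hg]
    exact (Bd_one u).mono (by simp)
  | succ n ih =>
    intro g hg
    rw [pow_succ, Finset.mem_mul] at hg
    obtain ⟨a, ha, t, ht, rfl⟩ := hg
    refine ((ih a ha).mul (h3 t ht)).mono (le_of_eq ?_)
    push_cast
    ring

theorem exists_pow_mem {S : Finset G} (hS : Subgroup.closure (S : Set G) = ⊤) (g : G) : ∃ n : ℕ, g ∈ sT S ^ n := by
  have h : g ∈ Subgroup.closure (S : Set G) := by
    rw [hS]
    exact Subgroup.mem_top g
  have key : ∃ n m : ℕ, g ∈ sT S ^ n ∧ g⁻¹ ∈ sT S ^ m := by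
    refine Subgroup.closure_induction (p := fun g _ => ∃ n m : ℕ, g ∈ sT S ^ n ∧ g⁻¹ ∈ sT S ^ m) ?_ ?_ ?_ ?_ h
    · intro s hs
      exact ⟨1, 1, by rw [pow_one]; exact mem_sT hs, by rw [pow_one]; exact inv_mem_sT hs⟩
    · refine ⟨0, 0, ?_, ?_⟩
      · rw [pow_zero]
        exact Finset.mem_one.2 rfl
      · rw [pow_zero, inv_one]
        exact Finset.mem_one.2 rfl
    · rintro a b - - ⟨n, m, h1, h2⟩ ⟨n', m', h3, h4⟩
      refine ⟨n + n', m' + m, ?_, ?_⟩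
      · rw [pow_add]
        exact Finset.mul_mem_mul h1 h3
      · rw [pow_add, mul_inv_rev]
        exact Finset.mul_mem_mul h4 h2
    · rintro a - ⟨n, m, h1, h2⟩
      exact ⟨m, n, h2, by rwa [inv_inv]⟩
  obtain ⟨n, -, h1, -⟩ := key
  exact ⟨n, h1⟩

/-! ### the maximum principle -/

theorem IsHD.neg {S : Finset G} {u : G → ℝ} (hu : IsHD S u) : IsHD S (fun x => -u x) := by
  refine ⟨fun s hs => ?_, fun x => ?_⟩
  · refine (hu.1 s hs).congr fun x => ?_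
    ring
  · have h := hu.2 x
    rw [← neg_eq_zero, ← Finset.sum_neg_distrib] at h
    rw [← h]
    refine Finset.sum_congr rfl fun s _ => ?_
    ring

private theorem maxp {S : Finset G} (hS : Subgroup.closure (S : Set G) = ⊤) (hinf : Infinite G) {u : G → ℝ}
    (hu : IsHD S u) (x₀ : G) (n : ℕ) (hx₀ : x₀ ∈ sT S ^ n) :
    ∃ x ∈ sT S ^ (n + 1), x ∉ sT S ^ n ∧ u x₀ ≤ u x := by
  obtain ⟨x₁, hx₁, hmax⟩ := (sT S ^ (n + 1)).exists_max_image u ⟨x₀, sT_pow_mono S n.le_succ hx₀⟩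
  by_contra hcon
  push Not at hcon
  have h01 : u x₀ ≤ u x₁ := hmax x₀ (sT_pow_mono S n.le_succ hx₀)
  have hin : ∀ x ∈ sT S ^ (n + 1), u x = u x₁ → x ∈ sT S ^ n := by
    intro x hx hxx
    by_contra h
    have h2 := hcon x hx h
    linarith
  have hstep : ∀ x ∈ sT S ^ (n + 1), u x = u x₁ → ∀ s ∈ S,
      (x * s ∈ sT S ^ (n + 1) ∧ u (x * s) = u x₁) ∧ (x * s⁻¹ ∈ sT S ^ (n + 1) ∧ u (x * s⁻¹) = u x₁) := by
    intro x hx hxx s hs
    have h1 := hin x hx hxx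
    have h2 : ∀ s' ∈ S, x * s' ∈ sT S ^ (n + 1) := fun s' hs' => by
      rw [pow_succ]
      exact Finset.mul_mem_mul h1 (mem_sT hs')
    have h3 : ∀ s' ∈ S, x * s'⁻¹ ∈ sT S ^ (n + 1) := fun s' hs' => by
      rw [pow_succ]
      exact Finset.mul_mem_mul h1 (inv_mem_sT hs')
    have h4 : ∀ s' ∈ S, 0 ≤ (u x - u (x * s')) + (u x - u (x * s'⁻¹)) := fun s' hs' => by
      have h5 := hmax _ (h2 s' hs')
      have h6 := hmax _ (h3 s' hs')
      linarith
    have h5 := (Finset.sum_eq_zero_iff_of_nonneg h4).1 (hu.2 x) s hs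
    have h6 := hmax _ (h2 s hs)
    have h7 := hmax _ (h3 s hs)
    refine ⟨⟨h2 s hs, ?_⟩, ⟨h3 s hs, ?_⟩⟩ <;> linarith
  have hall : ∀ g : G, (∀ x, x ∈ sT S ^ (n + 1) ∧ u x = u x₁ → x * g ∈ sT S ^ (n + 1) ∧ u (x * g) = u x₁) ∧
      (∀ x, x ∈ sT S ^ (n + 1) ∧ u x = u x₁ → x * g⁻¹ ∈ sT S ^ (n + 1) ∧ u (x * g⁻¹) = u x₁) := by
    intro g
    have h : g ∈ Subgroup.closure (S : Set G) := by
      rw [hS]
      exact Subgroup.mem_top g
    refine Subgroup.closure_induction (p := fun g _ => (∀ x, x ∈ sT S ^ (n + 1) ∧ u x = u x₁ →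
      x * g ∈ sT S ^ (n + 1) ∧ u (x * g) = u x₁) ∧ (∀ x, x ∈ sT S ^ (n + 1) ∧ u x = u x₁ →
      x * g⁻¹ ∈ sT S ^ (n + 1) ∧ u (x * g⁻¹) = u x₁)) ?_ ?_ ?_ ?_ h
    · intro s hs
      exact ⟨fun x hx => (hstep x hx.1 hx.2 s hs).1, fun x hx => (hstep x hx.1 hx.2 s hs).2⟩
    · refine ⟨fun x hx => ?_, fun x hx => ?_⟩
      · rw [mul_one]
        exact hx
      · rw [inv_one, mul_one]
        exact hx
    · rintro a b - - ⟨h1, h2⟩ ⟨h3, h4⟩
      refine ⟨fun x hx => ?_, fun x hx => ?_⟩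
      · rw [← mul_assoc]
        exact h3 _ (h1 x hx)
      · rw [mul_inv_rev, ← mul_assoc]
        exact h2 _ (h4 x hx)
    · rintro a - ⟨h1, h2⟩
      refine ⟨h2, fun x hx => ?_⟩
      rw [inv_inv]
      exact h1 x hx
  have hfin : Finite G := by
    have h1 : (Set.univ : Set G) ⊆ ((sT S ^ (n + 1) : Finset G) : Set G) := by
      intro g _
      have h2 := ((hall (x₁⁻¹ * g)).1 x₁ ⟨hx₁, rfl⟩).1
      rw [mul_inv_cancel_left] at h2
      exact h2
    exact Set.finite_univ_iff.1 ((Finset.finite_toSet _).subset h1)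
  exact not_finite G

/-- many points where `u` is at least `u x₀` -/
private theorem exists_level {S : Finset G} (hS : Subgroup.closure (S : Set G) = ⊤) (hinf : Infinite G) {u : G → ℝ}
    (hu : IsHD S u) (x₀ : G) (n : ℕ) (hx₀ : x₀ ∈ sT S ^ n) (R : ℕ) :
    ∃ Y : Finset G, Y.card = R ∧ Y ⊆ sT S ^ (n + R) ∧ ∀ y ∈ Y, u x₀ ≤ u y := by
  induction R with
  | zero => exact ⟨∅, rfl, Finset.empty_subset _, fun y hy => absurd hy (Finset.notMem_empty y)⟩
  | succ R ih =>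
    obtain ⟨Y, hY1, hY2, hY3⟩ := ih
    obtain ⟨x, hx1, hx2, hx3⟩ := maxp hS hinf hu x₀ (n + R) (sT_pow_mono S (Nat.le_add_right n R) hx₀)
    have hxY : x ∉ Y := fun h => hx2 (hY2 h)
    refine ⟨insert x Y, ?_, ?_, ?_⟩
    · rw [Finset.card_insert_of_notMem hxY, hY1]
    · intro y hy
      rw [Finset.mem_insert] at hy
      rcases hy with rfl | hy
      · exact hx1
      · exact sT_pow_mono S (by omega) (hY2 hy)
    · intro y hy
      rw [Finset.mem_insert] at hy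
      rcases hy with rfl | hy
      · exact hx3
      · exact hY3 y hy

/-- large sets where `u` is larger than `u x₀ - δ` -/
theorem exists_large {S : Finset G} (hS : Subgroup.closure (S : Set G) = ⊤) (hinf : Infinite G) {u : G → ℝ}
    (hu : IsHD S u) {C : ℝ} (hC : ∀ (n : ℕ), ∀ g ∈ sT S ^ n, Bd u g (n * C)) (x₀ : G) (n : ℕ) (hx₀ : x₀ ∈ sT S ^ n)
    {δ : ℝ} (hδ : 0 < δ) (ρ R : ℕ) (hR : 0 < R) (hR2 : 2 * (ρ * C) ^ 2 / δ ^ 2 ≤ R) :
    ∃ P : Finset G, ((sT S ^ ρ).card : ℝ) ≤ 2 * P.card ∧ P ⊆ sT S ^ (n + R + ρ) ∧ ∀ p ∈ P, u x₀ - δ < u p := by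
  obtain ⟨Y, hY1, hY2, hY3⟩ := exists_level hS hinf hu x₀ n hx₀ R
  obtain ⟨W, hW⟩ : ∃ W, W = sT S ^ ρ := ⟨_, rfl⟩
  rw [← hW]
  have h1 : ∀ w ∈ W, ((Y.filter fun y => δ ≤ |u (y * w) - u y|).card : ℝ) ≤ R / 2 := by
    intro w hw
    rw [hW] at hw
    have h2 := (hC ρ w hw).card_le hδ (Y.filter fun y => δ ≤ |u (y * w) - u y|)
      (fun x hx => (Finset.mem_filter.1 hx).2)
    refine h2.trans ?_
    rw [mul_div_assoc] at hR2
    linarith
  have h2 : ∑ y ∈ Y, ((W.filter fun w => δ ≤ |u (y * w) - u y|).card : ℝ) =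
      ∑ w ∈ W, ((Y.filter fun y => δ ≤ |u (y * w) - u y|).card : ℝ) := by
    have h3 : ∀ y ∈ Y, ((W.filter fun w => δ ≤ |u (y * w) - u y|).card : ℝ) =
        ∑ w ∈ W, if δ ≤ |u (y * w) - u y| then (1 : ℝ) else 0 := fun y _ => by
      rw [Finset.card_filter]
      push_cast
      rfl
    have h4 : ∀ w ∈ W, ((Y.filter fun y => δ ≤ |u (y * w) - u y|).card : ℝ) =
        ∑ y ∈ Y, if δ ≤ |u (y * w) - u y| then (1 : ℝ) else 0 := fun w _ => by
      rw [Finset.card_filter]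
      push_cast
      rfl
    rw [Finset.sum_congr rfl h3, Finset.sum_congr rfl h4, Finset.sum_comm]
  have h3 : ∑ y ∈ Y, ((W.filter fun w => δ ≤ |u (y * w) - u y|).card : ℝ) ≤ ∑ _y ∈ Y, (W.card : ℝ) / 2 := by
    rw [h2, Finset.sum_const, hY1, nsmul_eq_mul]
    have h4 := Finset.sum_le_sum h1
    rw [Finset.sum_const, nsmul_eq_mul] at h4
    refine h4.trans (le_of_eq ?_)
    ring
  have hYne : Y.Nonempty := by
    rw [← Finset.card_pos, hY1]
    exact hR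
  obtain ⟨y, hy, h4⟩ := Finset.exists_le_of_sum_le hYne h3
  have hy2 := hY2 hy
  have hy3 := hY3 y hy
  refine ⟨(W.filter fun w => ¬ δ ≤ |u (y * w) - u y|).map (Equiv.mulLeft y).toEmbedding, ?_, ?_, ?_⟩
  · rw [Finset.card_map]
    have h5 := Finset.card_filter_add_card_filter_not (s := W) (fun w => δ ≤ |u (y * w) - u y|)
    have h6 : ((W.filter fun w => δ ≤ |u (y * w) - u y|).card : ℝ) +
        ((W.filter fun w => ¬ δ ≤ |u (y * w) - u y|).card : ℝ) = W.card := by exact_mod_cast h5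
    linarith
  · intro p hp
    rw [Finset.mem_map] at hp
    obtain ⟨w, hw, rfl⟩ := hp
    rw [Finset.mem_filter, hW] at hw
    rw [pow_add]
    exact Finset.mul_mem_mul hy2 hw.1
  · intro p hp
    rw [Finset.mem_map] at hp
    obtain ⟨w, hw, rfl⟩ := hp
    rw [Finset.mem_filter, not_le] at hw
    have h5 := (abs_lt.1 hw.2).1
    show u x₀ - δ < u (y * w)
    linarith

end Pool.Agent.H79.CG
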