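import Mathlib
import Pool.Agent.H59.CG.TorsA

/-!
# [H59 CG TORS] No bounded torsion with small centralizers

Let `G` be infinite and finitely generated, of more than quartic growth, of bounded exponent modulo a finite set `Z`, such
that the centralizers of the elements outside `Z` have at most `B` elements. Then every harmonic function of finite energy
on `G` is constant. (For most pairs `(p, q)` the powers of `h = p q⁻¹` stay where `u` is close to `u p`, until the last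
one, `h⁻¹ z`, where `u` is close to `u q`.)
-/

set_option autoImplicit false

open scoped Classical Pointwise

noncomputable section

namespace Pool.Agent.H79.CG

universe u

variable {G : Type u} [Group G]

/-- choosing a good pair -/
private theorem exists_good {α β : Type*} (P : Finset α) (Q : Finset β) (R1 R2 : α → β → Prop) (m : ℝ)
    (h1 : ∀ p ∈ P, ((Q.filter fun q => R1 p q).card : ℝ) ≤ m)
    (h2 : ∀ q ∈ Q, ((P.filter fun p => R2 p q).card : ℝ) ≤ m) (hm : 0 ≤ m)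
    (hP : 2 * m < P.card) (hQ : 2 * m < Q.card) : ∃ p ∈ P, ∃ q ∈ Q, ¬ R1 p q ∧ ¬ R2 p q := by
  by_contra hcon
  push Not at hcon
  have h3 : ∀ p ∈ P, (Q.card : ℝ) ≤ ((Q.filter fun q => R1 p q).card : ℝ) + ((Q.filter fun q => R2 p q).card : ℝ) := by
    intro p hp
    have h4 : Q ⊆ (Q.filter fun q => R1 p q) ∪ (Q.filter fun q => R2 p q) := by
      intro q hq
      rw [Finset.mem_union, Finset.mem_filter, Finset.mem_filter]
      by_cases h5 : R1 p q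
      · exact Or.inl ⟨hq, h5⟩
      · exact Or.inr ⟨hq, hcon p hp q hq h5⟩
    have h5 := (Finset.card_le_card h4).trans (Finset.card_union_le _ _)
    exact_mod_cast h5
  have h4 := Finset.sum_le_sum h3
  rw [Finset.sum_const, nsmul_eq_mul, Finset.sum_add_distrib] at h4
  have h5 : ∑ p ∈ P, ((Q.filter fun q => R1 p q).card : ℝ) ≤ P.card * m := by
    have h6 := Finset.sum_le_sum h1
    rw [Finset.sum_const, nsmul_eq_mul] at h6
    exact h6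
  have h6 : ∑ p ∈ P, ((Q.filter fun q => R2 p q).card : ℝ) ≤ Q.card * m := by
    have h7 : ∑ p ∈ P, ((Q.filter fun q => R2 p q).card : ℝ) = ∑ q ∈ Q, ((P.filter fun p => R2 p q).card : ℝ) := by
      have h8 : ∀ p ∈ P, ((Q.filter fun q => R2 p q).card : ℝ) = ∑ q ∈ Q, if R2 p q then (1 : ℝ) else 0 := fun p _ => by
        rw [Finset.card_filter]
        push_cast
        rfl
      have h9 : ∀ q ∈ Q, ((P.filter fun p => R2 p q).card : ℝ) = ∑ p ∈ P, if R2 p q then (1 : ℝ) else 0 := fun q _ => by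
        rw [Finset.card_filter]
        push_cast
        rfl
      rw [Finset.sum_congr rfl h8, Finset.sum_congr rfl h9, Finset.sum_comm]
    rw [h7]
    have h8 := Finset.sum_le_sum h2
    rw [Finset.sum_const, nsmul_eq_mul] at h8
    exact h8
  nlinarith [mul_le_mul_of_nonneg_left hP.le (Nat.cast_nonneg (α := ℝ) Q.card),
    mul_le_mul_of_nonneg_left hQ.le (Nat.cast_nonneg (α := ℝ) P.card), hm,
    mul_pos (lt_of_le_of_lt (by linarith : (0 : ℝ) ≤ 2 * m) hP) (lt_of_le_of_lt (by linarith : (0 : ℝ) ≤ 2 * m) hQ)]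

/-- the values `φ d ^ k` avoid a small set, up to few `d` -/
private theorem card_pow_le {u : G → ℝ} {w : G} {c ε : ℝ} (hw : Bd u w c) (hε : 0 < ε) (Z : Finset G) (B : ℕ)
    (hB : ∀ v ∉ Z, ∀ F : Finset G, (∀ g ∈ F, g * v = v * g) → F.card ≤ B) (D : Finset G) (φ : G → G)
    (hφ : Function.Injective φ) (k : ℕ) :
    ((D.filter fun d => φ d ^ k ∉ Z ∧ ε ≤ |u (φ d ^ k * w) - u (φ d ^ k)|).card : ℝ) ≤ B * (c ^ 2 / ε ^ 2) := by
  obtain ⟨D', hD'⟩ : ∃ D', D' = D.filter fun d => φ d ^ k ∉ Z ∧ ε ≤ |u (φ d ^ k * w) - u (φ d ^ k)| := ⟨_, rfl⟩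
  rw [← hD']
  have h0 : ∀ d ∈ D', φ d ^ k ∉ Z ∧ ε ≤ |u (φ d ^ k * w) - u (φ d ^ k)| := by
    intro d hd
    rw [hD', Finset.mem_filter] at hd
    exact hd.2
  have h1 : D'.card ≤ B * (D'.image fun d => φ d ^ k).card := by
    refine Finset.card_le_mul_card_image D' B ?_
    intro v hv
    rw [Finset.mem_image] at hv
    obtain ⟨d, hd, rfl⟩ := hv
    have h2 := hB (φ d ^ k) (h0 d hd).1 ((D'.filter fun x => φ x ^ k = φ d ^ k).map ⟨φ, hφ⟩) (by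
      intro g hg
      rw [Finset.mem_map] at hg
      obtain ⟨x, hx, rfl⟩ := hg
      rw [Finset.mem_filter] at hx
      show φ x * φ d ^ k = φ d ^ k * φ x
      rw [← hx.2, ← pow_succ', ← pow_succ])
    rw [Finset.card_map] at h2
    exact h2
  have h2 : ((D'.image fun d => φ d ^ k).card : ℝ) ≤ c ^ 2 / ε ^ 2 := by
    refine hw.card_le hε _ ?_
    intro x hx
    rw [Finset.mem_image] at hx
    obtain ⟨d, hd, rfl⟩ := hx
    exact (h0 d hd).2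
  have h3 : (D'.card : ℝ) ≤ B * ((D'.image fun d => φ d ^ k).card : ℝ) := by exact_mod_cast h1
  exact h3.trans (mul_le_mul_of_nonneg_left h2 (Nat.cast_nonneg _))

private theorem card_one_le {u : G → ℝ} {w : G} {c ε : ℝ} (hw : Bd u w c) (hε : 0 < ε) (D : Finset G) (φ : G → G)
    (hφ : Function.Injective φ) :
    ((D.filter fun d => ε ≤ |u (φ d * w) - u (φ d)|).card : ℝ) ≤ c ^ 2 / ε ^ 2 := by
  rw [← Finset.card_map ⟨φ, hφ⟩]
  refine hw.card_le hε _ ?_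
  intro x hx
  rw [Finset.mem_map] at hx
  obtain ⟨d, hd, rfl⟩ := hx
  exact (Finset.mem_filter.1 hd).2

omit [Group G] in
private theorem card_Z_le (Z D : Finset G) (φ : G → G) (hφ : Function.Injective φ) :
    ((D.filter fun d => φ d ∈ Z).card : ℝ) ≤ Z.card := by
  rw [← Finset.card_map ⟨φ, hφ⟩]
  have h : (D.filter fun d => φ d ∈ Z).map ⟨φ, hφ⟩ ⊆ Z := by
    intro x hx
    rw [Finset.mem_map] at hx
    obtain ⟨d, hd, rfl⟩ := hx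
    exact (Finset.mem_filter.1 hd).2
  exact_mod_cast Finset.card_le_card h

/-- a good pair gives a contradiction -/
private theorem chain {u : G → ℝ} {p q : G} {ε δ a b : ℝ} {N : ℕ} (Z : Finset G)
    (hN : ∀ g : G, ∃ m, 1 ≤ m ∧ m ≤ N ∧ g ^ m ∈ Z) (hε : 0 < ε)
    (h1 : ∀ k ∈ Finset.Icc 1 N, (p * q⁻¹) ^ k ∉ Z → |u ((p * q⁻¹) ^ k * p) - u ((p * q⁻¹) ^ k)| < ε)
    (h2 : ∀ k ∈ Finset.Icc 1 N, (p * q⁻¹) ^ k ∉ Z → |u ((p * q⁻¹) ^ k * q) - u ((p * q⁻¹) ^ k)| < ε)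
    (h3 : ∀ z ∈ Z, |u ((p * q⁻¹)⁻¹ * z) - u ((p * q⁻¹)⁻¹)| < ε)
    (h4 : p * q⁻¹ ∉ Z) (h5 : |u ((p * q⁻¹)⁻¹ * p) - u ((p * q⁻¹)⁻¹)| < ε)
    (hp : a - δ < u p) (hq : u q < b + δ) : a - b < 2 * δ + (2 * N + 3) * ε := by
  obtain ⟨h, hh⟩ : ∃ h, h = p * q⁻¹ := ⟨_, rfl⟩
  rw [← hh] at h1 h2 h3 h4 h5
  obtain ⟨m, hm, hmin⟩ : ∃ m, (1 ≤ m ∧ m ≤ N ∧ h ^ m ∈ Z) ∧ ∀ k, k < m → ¬ (1 ≤ k ∧ k ≤ N ∧ h ^ k ∈ Z) :=
    ⟨Nat.find (hN h), Nat.find_spec (hN h), fun k hk => Nat.find_min (hN h) hk⟩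
  have hm2 : 2 ≤ m := by
    by_contra hcon
    have h6 : m = 1 := by omega
    rw [h6, pow_one] at hm
    exact h4 hm.2.2
  have hnZ : ∀ k, 1 ≤ k → k < m → h ^ k ∉ Z := fun k hk1 hk2 hk3 => hmin k hk2 ⟨hk1, by omega, hk3⟩
  have hchain : ∀ k, 1 ≤ k → k < m → |u (h ^ k) - u h| ≤ (k - 1) * (2 * ε) := by
    intro k hk
    induction k, hk using Nat.le_induction with
    | base =>
      intro _
      rw [pow_one, sub_self, abs_zero]
      simp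
    | succ k hk ih =>
      intro hk2
      have h6 := ih (by omega)
      have h7 := h1 k (Finset.mem_Icc.2 ⟨hk, by omega⟩) (hnZ k hk (by omega))
      have h8 := h2 (k + 1) (Finset.mem_Icc.2 ⟨by omega, by omega⟩) (hnZ (k + 1) (by omega) hk2)
      have h9 : h ^ (k + 1) * q = h ^ k * p := by
        rw [pow_succ, mul_assoc, hh, inv_mul_cancel_right]
      rw [h9] at h8
      rw [abs_lt] at h7 h8
      rw [abs_le] at h6 ⊢
      push_cast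
      constructor <;> nlinarith
  have h6 := hchain (m - 1) (by omega) (by omega)
  have h7 : h ^ (m - 1) = h⁻¹ * h ^ m := by
    have h8 : h ^ m = h * h ^ (m - 1) := by
      rw [← pow_succ']
      congr 1
      omega
    rw [h8, inv_mul_cancel_left]
  have h8 := h3 _ hm.2.2
  rw [← h7] at h8
  have h9 : h⁻¹ * p = q := by
    rw [hh, mul_inv_rev, inv_inv, inv_mul_cancel_right]
  rw [h9] at h5
  have h10 := h2 1 (Finset.mem_Icc.2 ⟨le_rfl, by omega⟩) (by rw [pow_one]; exact h4)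
  have h11 : h * q = p := by
    rw [hh, inv_mul_cancel_right]
  rw [pow_one, h11] at h10
  rw [abs_lt] at h5 h8 h10
  rw [abs_le] at h6
  have h12 : (((m - 1 : ℕ) : ℝ) - 1) * (2 * ε) ≤ N * (2 * ε) := by
    refine mul_le_mul_of_nonneg_right ?_ (by linarith)
    have h13 : ((m - 1 : ℕ) : ℝ) ≤ N := by
      have := hm.2.1
      exact_mod_cast (by omega : m - 1 ≤ N)
    linarith
  nlinarith

theorem false_of_torsion (S : Finset G) (hS : Subgroup.closure (S : Set G) = ⊤) (hinf : Infinite G)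
    (hgrow : ∀ C : ℝ, ∃ n : ℕ, 1 ≤ n ∧ C * (n : ℝ) ^ 4 < ((sT S ^ n).card : ℝ))
    (u : G → ℝ) (hu : IsHD S u) (x₀ y₀ : G) (hxy : u y₀ < u x₀)
    (Z : Finset G) (N : ℕ) (hN : ∀ g : G, ∃ m, 1 ≤ m ∧ m ≤ N ∧ g ^ m ∈ Z)
    (B : ℕ) (hB : ∀ v ∉ Z, ∀ F : Finset G, (∀ g ∈ F, g * v = v * g) → F.card ≤ B) : False := by
  obtain ⟨C, hC0, hC⟩ := exists_Bd hu
  obtain ⟨d, hd⟩ : ∃ d, d = u x₀ - u y₀ := ⟨_, rfl⟩
  have hd0 : 0 < d := by rw [hd]; linarith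
  obtain ⟨δ, hδ⟩ : ∃ δ, δ = d / 4 := ⟨_, rfl⟩
  have hδ0 : 0 < δ := by rw [hδ]; positivity
  obtain ⟨ε, hε⟩ : ∃ ε, ε = d / (4 * (2 * N + 3)) := ⟨_, rfl⟩
  have hε0 : 0 < ε := by rw [hε]; positivity
  have hεN : (2 * N + 3) * ε = d / 4 := by
    rw [hε]
    field_simp
  obtain ⟨n₁, hn₁⟩ := exists_pow_mem hS x₀
  obtain ⟨n₂, hn₂⟩ := exists_pow_mem hS y₀
  obtain ⟨n₀, hn₀⟩ : ∃ n₀, n₀ = n₁ + n₂ := ⟨_, rfl⟩
  have hx₀ : x₀ ∈ sT S ^ n₀ := sT_pow_mono S (by omega) hn₁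
  have hy₀ : y₀ ∈ sT S ^ n₀ := sT_pow_mono S (by omega) hn₂
  -- the costs of the elements of `Z`
  obtain ⟨cZ, hcZ⟩ : ∃ cZ : ℝ, ∀ z ∈ Z, Bd u z cZ := by
    choose n hn using fun z => exists_pow_mem hS z
    refine ⟨(∑ z ∈ Z, (n z : ℝ)) * C, fun z hz => (hC (n z) z (hn z)).mono ?_⟩
    refine mul_le_mul_of_nonneg_right ?_ hC0
    exact Finset.single_le_sum (f := fun z => (n z : ℝ)) (fun z _ => Nat.cast_nonneg _) hz
  -- the constants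
  obtain ⟨C₁, hC₁⟩ : ∃ C₁ : ℝ, C₁ = n₀ + 2 * C ^ 2 / δ ^ 2 + 3 := ⟨_, rfl⟩
  have hC₁0 : 0 ≤ C₁ := by rw [hC₁]; positivity
  obtain ⟨C₂, hC₂⟩ : ∃ C₂ : ℝ, C₂ = (N * B + 1) * (C₁ * C) ^ 2 / ε ^ 2 + Z.card * (cZ ^ 2 / ε ^ 2) + Z.card := ⟨_, rfl⟩
  obtain ⟨ρ, hρ1, hρ⟩ := hgrow (4 * C₂)
  have hρ1' : (1 : ℝ) ≤ ρ := by exact_mod_cast hρ1
  obtain ⟨R, hR⟩ : ∃ R : ℕ, R = ⌈2 * (ρ * C) ^ 2 / δ ^ 2⌉₊ + 1 := ⟨_, rfl⟩
  have hR0 : 0 < R := by omega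
  have hR1 : 2 * (ρ * C) ^ 2 / δ ^ 2 ≤ R := by
    rw [hR]
    push_cast
    exact (Nat.le_ceil _).trans (by linarith)
  have hR2 : (R : ℝ) ≤ 2 * (ρ * C) ^ 2 / δ ^ 2 + 2 := by
    rw [hR]
    push_cast
    have := Nat.ceil_lt_add_one (a := 2 * (ρ * C) ^ 2 / δ ^ 2) (by positivity)
    linarith
  obtain ⟨P, hP1, hP2, hP3⟩ := exists_large hS hinf hu hC x₀ n₀ hx₀ hδ0 ρ R hR0 hR1
  obtain ⟨Q, hQ1, hQ2, hQ3⟩ := exists_large hS hinf hu.neg (fun n g hg => (hC n g hg).neg) y₀ n₀ hy₀ hδ0 ρ R hR0 hR1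
  obtain ⟨c, hc⟩ : ∃ c : ℝ, c = C₁ * ρ ^ 2 * C := ⟨_, rfl⟩
  have hL : ((n₀ + R + ρ : ℕ) : ℝ) ≤ C₁ * ρ ^ 2 := by
    push_cast
    have h1 : (1 : ℝ) ≤ ρ ^ 2 := one_le_pow₀ hρ1'
    have h2 : (ρ : ℝ) ≤ ρ ^ 2 := by nlinarith
    have h3 : (n₀ : ℝ) ≤ n₀ * ρ ^ 2 := by nlinarith [Nat.cast_nonneg (α := ℝ) n₀]
    have h4 : 2 * (ρ * C) ^ 2 / δ ^ 2 = 2 * C ^ 2 / δ ^ 2 * ρ ^ 2 := by ring
    rw [hC₁, add_mul, add_mul, ← h4]
    linarith
  have hcb : ((n₀ + R + ρ : ℕ) : ℝ) * C ≤ c := by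
    rw [hc]
    exact mul_le_mul_of_nonneg_right hL hC0
  have hPc : ∀ p ∈ P, Bd u p c := fun p hp => (hC _ p (hP2 hp)).mono hcb
  have hQc : ∀ q ∈ Q, Bd u q c := fun q hq => (hC _ q (hQ2 hq)).mono hcb
  have hZ0 : (0 : ℝ) ≤ Z.card := Nat.cast_nonneg _
  obtain ⟨M, hM⟩ : ∃ M : ℝ, M = N * (B * (c ^ 2 / ε ^ 2)) + Z.card * (cZ ^ 2 / ε ^ 2) + Z.card + c ^ 2 / ε ^ 2 := ⟨_, rfl⟩
  have hM0 : 0 ≤ M := by rw [hM]; positivity
  have hMle : M ≤ C₂ * ρ ^ 4 := by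
    have h1 : (1 : ℝ) ≤ ρ ^ 4 := one_le_pow₀ hρ1'
    have h2 : N * (B * (c ^ 2 / ε ^ 2)) + c ^ 2 / ε ^ 2 = (N * B + 1) * (C₁ * C) ^ 2 / ε ^ 2 * ρ ^ 4 := by
      rw [hc]
      ring
    have h3 : Z.card * (cZ ^ 2 / ε ^ 2) ≤ Z.card * (cZ ^ 2 / ε ^ 2) * ρ ^ 4 :=
      le_mul_of_one_le_right (by positivity) h1
    have h4 : (Z.card : ℝ) ≤ Z.card * ρ ^ 4 := le_mul_of_one_le_right hZ0 h1
    rw [hM, hC₂, add_mul, add_mul, ← h2]
    linarith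
  have hPM : 2 * M < P.card := by linarith
  have hQM : 2 * M < Q.card := by linarith
  obtain ⟨R1, hR1⟩ : ∃ R1 : G → G → Prop, ∀ p q, R1 p q ↔ ((∃ k ∈ Finset.Icc 1 N, (p * q⁻¹) ^ k ∉ Z ∧
      ε ≤ |u ((p * q⁻¹) ^ k * p) - u ((p * q⁻¹) ^ k)|) ∨
      (∃ z ∈ Z, ε ≤ |u ((p * q⁻¹)⁻¹ * z) - u ((p * q⁻¹)⁻¹)|) ∨ p * q⁻¹ ∈ Z ∨
      ε ≤ |u ((p * q⁻¹)⁻¹ * p) - u ((p * q⁻¹)⁻¹)|) := ⟨_, fun _ _ => Iff.rfl⟩
  obtain ⟨R2, hR2'⟩ : ∃ R2 : G → G → Prop, ∀ p q, R2 p q ↔ (∃ k ∈ Finset.Icc 1 N, (p * q⁻¹) ^ k ∉ Z ∧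
      ε ≤ |u ((p * q⁻¹) ^ k * q) - u ((p * q⁻¹) ^ k)|) := ⟨_, fun _ _ => Iff.rfl⟩
  have key1 : ∀ p ∈ P, ((Q.filter fun q => R1 p q).card : ℝ) ≤ M := by
    intro p hp
    have hinj : Function.Injective fun q : G => p * q⁻¹ := fun a b hab => inv_injective (mul_left_cancel hab)
    have hinj2 : Function.Injective fun q : G => (p * q⁻¹)⁻¹ := fun a b hab => hinj (inv_injective hab)
    have e1 : (Q.filter fun q => R1 p q) ⊆
        ((Finset.Icc 1 N).biUnion fun k => Q.filter fun q => (p * q⁻¹) ^ k ∉ Z ∧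
          ε ≤ |u ((p * q⁻¹) ^ k * p) - u ((p * q⁻¹) ^ k)|) ∪
        ((Z.biUnion fun z => Q.filter fun q => ε ≤ |u ((p * q⁻¹)⁻¹ * z) - u ((p * q⁻¹)⁻¹)|) ∪
        ((Q.filter fun q => p * q⁻¹ ∈ Z) ∪ (Q.filter fun q => ε ≤ |u ((p * q⁻¹)⁻¹ * p) - u ((p * q⁻¹)⁻¹)|))) := by
      intro q hq
      rw [Finset.mem_filter, hR1] at hq
      obtain ⟨hq1, ⟨k, hk, hq2⟩ | ⟨z, hz, hq2⟩ | hq2 | hq2⟩ := hq
      · exact Finset.mem_union_left _ (Finset.mem_biUnion.2 ⟨k, hk, Finset.mem_filter.2 ⟨hq1, hq2⟩⟩)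
      · exact Finset.mem_union_right _ (Finset.mem_union_left _
          (Finset.mem_biUnion.2 ⟨z, hz, Finset.mem_filter.2 ⟨hq1, hq2⟩⟩))
      · exact Finset.mem_union_right _ (Finset.mem_union_right _ (Finset.mem_union_left _
          (Finset.mem_filter.2 ⟨hq1, hq2⟩)))
      · exact Finset.mem_union_right _ (Finset.mem_union_right _ (Finset.mem_union_right _
          (Finset.mem_filter.2 ⟨hq1, hq2⟩)))
    have e2 := (Finset.card_le_card e1).trans ((Finset.card_union_le _ _).trans (Nat.add_le_add_left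
      ((Finset.card_union_le _ _).trans (Nat.add_le_add_left (Finset.card_union_le _ _) _)) _))
    have e3 : ((((Finset.Icc 1 N).biUnion fun k => Q.filter fun q => (p * q⁻¹) ^ k ∉ Z ∧
          ε ≤ |u ((p * q⁻¹) ^ k * p) - u ((p * q⁻¹) ^ k)|).card : ℕ) : ℝ) ≤ N * (B * (c ^ 2 / ε ^ 2)) := by
      have h1 : ((((Finset.Icc 1 N).biUnion fun k => Q.filter fun q => (p * q⁻¹) ^ k ∉ Z ∧
          ε ≤ |u ((p * q⁻¹) ^ k * p) - u ((p * q⁻¹) ^ k)|).card : ℕ) : ℝ) ≤ ∑ k ∈ Finset.Icc 1 N,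
          ((Q.filter fun q => (p * q⁻¹) ^ k ∉ Z ∧ ε ≤ |u ((p * q⁻¹) ^ k * p) - u ((p * q⁻¹) ^ k)|).card : ℝ) := by
        exact_mod_cast Finset.card_biUnion_le
      refine h1.trans ?_
      have h2 := Finset.sum_le_sum fun k (_ : k ∈ Finset.Icc 1 N) =>
        card_pow_le (hPc p hp) hε0 Z B hB Q (fun q => p * q⁻¹) hinj k
      rw [Finset.sum_const, Nat.card_Icc, nsmul_eq_mul, Nat.add_sub_cancel] at h2
      exact h2
    have e4 : (((Z.biUnion fun z => Q.filter fun q => ε ≤ |u ((p * q⁻¹)⁻¹ * z) - u ((p * q⁻¹)⁻¹)|).card : ℕ) : ℝ) ≤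
        Z.card * (cZ ^ 2 / ε ^ 2) := by
      have h1 : (((Z.biUnion fun z => Q.filter fun q => ε ≤ |u ((p * q⁻¹)⁻¹ * z) - u ((p * q⁻¹)⁻¹)|).card : ℕ) : ℝ) ≤
          ∑ z ∈ Z, ((Q.filter fun q => ε ≤ |u ((p * q⁻¹)⁻¹ * z) - u ((p * q⁻¹)⁻¹)|).card : ℝ) := by
        exact_mod_cast Finset.card_biUnion_le
      refine h1.trans ?_
      have h2 := Finset.sum_le_sum fun z (hz : z ∈ Z) =>
        card_one_le (hcZ z hz) hε0 Q (fun q => (p * q⁻¹)⁻¹) hinj2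
      rw [Finset.sum_const, nsmul_eq_mul] at h2
      exact h2
    have e5 := card_Z_le Z Q (fun q => p * q⁻¹) hinj
    have e6 := card_one_le (hPc p hp) hε0 Q (fun q => (p * q⁻¹)⁻¹) hinj2
    rw [hM]
    have e7 : (((Q.filter fun q => R1 p q).card : ℕ) : ℝ) ≤
        (((Finset.Icc 1 N).biUnion fun k => Q.filter fun q => (p * q⁻¹) ^ k ∉ Z ∧
          ε ≤ |u ((p * q⁻¹) ^ k * p) - u ((p * q⁻¹) ^ k)|).card : ℝ) +
        (((Z.biUnion fun z => Q.filter fun q => ε ≤ |u ((p * q⁻¹)⁻¹ * z) - u ((p * q⁻¹)⁻¹)|).card : ℝ) +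
        (((Q.filter fun q => p * q⁻¹ ∈ Z).card : ℝ) +
          ((Q.filter fun q => ε ≤ |u ((p * q⁻¹)⁻¹ * p) - u ((p * q⁻¹)⁻¹)|).card : ℝ))) := by
      exact_mod_cast e2
    refine e7.trans ?_
    linarith
  have key2 : ∀ q ∈ Q, ((P.filter fun p => R2 p q).card : ℝ) ≤ M := by
    intro q hq
    have hinj : Function.Injective fun p : G => p * q⁻¹ := fun a b hab => mul_right_cancel hab
    have e1 : (P.filter fun p => R2 p q) ⊆
        ((Finset.Icc 1 N).biUnion fun k => P.filter fun p => (p * q⁻¹) ^ k ∉ Z ∧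
          ε ≤ |u ((p * q⁻¹) ^ k * q) - u ((p * q⁻¹) ^ k)|) := by
      intro p hp
      rw [Finset.mem_filter, hR2'] at hp
      obtain ⟨hp1, k, hk, hp2⟩ := hp
      exact Finset.mem_biUnion.2 ⟨k, hk, Finset.mem_filter.2 ⟨hp1, hp2⟩⟩
    have e2 : (((P.filter fun p => R2 p q).card : ℕ) : ℝ) ≤
        ∑ k ∈ Finset.Icc 1 N, ((P.filter fun p => (p * q⁻¹) ^ k ∉ Z ∧
          ε ≤ |u ((p * q⁻¹) ^ k * q) - u ((p * q⁻¹) ^ k)|).card : ℝ) := by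
      exact_mod_cast (Finset.card_le_card e1).trans Finset.card_biUnion_le
    have e3 := Finset.sum_le_sum fun k (_ : k ∈ Finset.Icc 1 N) =>
        card_pow_le (hQc q hq) hε0 Z B hB P (fun p => p * q⁻¹) hinj k
    rw [Finset.sum_const, Nat.card_Icc, nsmul_eq_mul, Nat.add_sub_cancel] at e3
    refine e2.trans (e3.trans ?_)
    rw [hM]
    have e4 : 0 ≤ Z.card * (cZ ^ 2 / ε ^ 2) := by positivity
    have e5 : 0 ≤ c ^ 2 / ε ^ 2 := by positivity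
    linarith
  obtain ⟨p, hp, q, hq, g1, g2⟩ := exists_good P Q R1 R2 M key1 key2 hM0 hPM hQM
  rw [hR1] at g1
  rw [hR2'] at g2
  push Not at g1 g2
  obtain ⟨h1, h3, h4, h5⟩ := g1
  have h6 := hQ3 q hq
  have h7 := chain (u := u) (p := p) (q := q) (ε := ε) (δ := δ) (a := u x₀) (b := u y₀) Z hN hε0 h1 g2 h3 h4 h5
    (hP3 p hp) (by linarith)
  rw [hεN, hδ] at h7
  linarith

end Pool.Agent.H79.CG
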