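import Mathlib
import Pool.Agent.H59.CG.Tors
import Pool.Agent.H54.CG.Sel
import Pool.Agent.H79.CG.Gro

/-!
# [H59 CG NOTORS] A torsion group with bounded finite subgroups has an infinite subgroup with `beta = 0`
-/

set_option autoImplicit false

open scoped Classical Pointwise Topology

noncomputable section

namespace Pool.Agent.H79.CG

universe u

/-- exponential growth is more than quartic -/
private theorem exists_lt_pow {r : ℝ} (hr : 1 < r) (C : ℝ) : ∃ n : ℕ, 1 ≤ n ∧ C * (n : ℝ) ^ 4 < r ^ n := by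
  have h1 := tendsto_pow_const_div_const_pow_of_one_lt 4 hr
  have h2 : ∀ᶠ n : ℕ in Filter.atTop, (n : ℝ) ^ 4 / r ^ n < 1 / (|C| + 1) :=
    h1.eventually_lt_const (by positivity)
  obtain ⟨n, h3, h4⟩ := (h2.and (Filter.eventually_ge_atTop 1)).exists
  refine ⟨n, h4, ?_⟩
  have hrn : 0 < r ^ n := pow_pos (by linarith) n
  rw [div_lt_div_iff₀ hrn (by positivity)] at h3
  have h5 : C * (n : ℝ) ^ 4 ≤ |C| * (n : ℝ) ^ 4 := mul_le_mul_of_nonneg_right (le_abs_self C) (by positivity)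
  have h6 : (0 : ℝ) ≤ (n : ℝ) ^ 4 := by positivity
  nlinarith

/-- TORS and GROWTH together -/
theorem false_of_beta_pos {G : Type u} [Group G] (F : Finset G) (hF : Subgroup.closure (F : Set G) = ⊤)
    (hinf : Infinite G) (hb : 0 < beta F) (Z : Finset G) (N : ℕ) (hN : ∀ g : G, ∃ m, 1 ≤ m ∧ m ≤ N ∧ g ^ m ∈ Z)
    (B : ℕ) (hB : ∀ v ∉ Z, ∀ A : Finset G, (∀ g ∈ A, g * v = v * g) → A.card ≤ B) : False := by
  obtain ⟨u, hu, x, y, hxy⟩ := exists_of_beta_pos F hb
  have hbt : 0 < bt (lb F) := hb.trans_le (beta_le F)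
  have hgrow : ∀ C : ℝ, ∃ n : ℕ, 1 ≤ n ∧ C * (n : ℝ) ^ 4 < ((sT F ^ n).card : ℝ) := by
    intro C
    obtain ⟨n, h1, h2⟩ := exists_lt_pow (r := 1 + bt (lb F)) (by linarith) C
    exact ⟨n, h1, h2.trans_le (growth F hinf hF n)⟩
  rcases lt_or_gt_of_ne hxy with h | h
  · exact false_of_torsion F hF hinf hgrow u hu y x h Z N hN B hB
  · exact false_of_torsion F hF hinf hgrow u hu x y h Z N hN B hB

theorem no_tors {G : Type u} [Group G] (S : Finset G) (hS : Subgroup.closure (S : Set G) = ⊤) (B : ℕ)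
    (hB : ∀ H : Subgroup G, Finite H → Nat.card H ≤ B) (ht : ∀ g : G, IsOfFinOrder g)
    (hmin : ∀ (K : Subgroup G) (F : Finset K), Infinite K → Subgroup.closure (F : Set K) = ⊤ → 0 < beta F)
    (hinf : Infinite G) : False := by
  have hfg : Group.FG G := ⟨⟨S, hS⟩⟩
  have hB' : ∀ H : Subgroup G, (H : Set G).Finite → Nat.card H ≤ B := fun H hH => hB H hH.to_subtype
  obtain ⟨K, hKfg, hKinf, hcfin, -, hcent⟩ := exists_sel hfg ht B hB'
  have hKfg' : Group.FG K := (Group.fg_iff_subgroup_fg K).2 hKfg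
  obtain ⟨F, hF⟩ := hKfg'.out
  have hKinf' : Infinite K := hKinf.to_subtype
  have hb : 0 < beta F := hmin K F hKinf' hF
  have hN : ∀ g : K, ∃ m, 1 ≤ m ∧ m ≤ B ∧ g ^ m ∈ hcfin.toFinset := by
    intro g
    refine ⟨orderOf g, ?_, ?_, ?_⟩
    · rw [← Subgroup.orderOf_coe]
      exact (ht (g : G)).orderOf_pos
    · rw [← Subgroup.orderOf_coe]
      exact orderOf_le_of_bound hB' ht (g : G)
    · rw [pow_orderOf_eq_one, Set.Finite.mem_toFinset]
      exact Subgroup.one_mem _
  have hC : ∀ v ∉ hcfin.toFinset, ∀ A : Finset K, (∀ g ∈ A, g * v = v * g) → A.card ≤ B := by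
    intro v hv A hA
    rw [Set.Finite.mem_toFinset] at hv
    obtain ⟨h1, h2⟩ := hcent v hv
    refine le_trans ?_ h2
    rw [← Set.ncard_coe_finset A]
    have h3 : (A : Set K).ncard ≤ (Subgroup.centralizer ({v} : Set K) : Set K).ncard := by
      refine Set.ncard_le_ncard ?_ h1
      intro g hg
      show g ∈ Subgroup.centralizer ({v} : Set K)
      rw [Subgroup.mem_centralizer_iff]
      intro w hw
      rw [Set.mem_singleton_iff] at hw
      rw [hw]
      exact (hA g hg).symm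
    exact h3
  exact false_of_beta_pos F hF hKinf' hb hcfin.toFinset B hN B hC

end Pool.Agent.H79.CG
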